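import Pool.Agent.Y660.RK.Jump

/-!
# MP_5aaff8_an: the rank of a minimizing constraint map can jump from `k` to `k + 1` for every `k`

`M` is the exterior of the closed unit ball of `ℝ^m`; the obstacle `Mᶜ` is the closed unit ball,
which is convex.  For all `k ≥ 1`, `n ≥ k + 1` and `m ≥ 2 k` the map
`u(x) = cosh(x_{k+1}⁺) k^{-1/2} (cos x₁, sin x₁, …, cos x_k, sin x_k, 0, …, 0)` on the open unit
cube `{|x_i| < 1/2}` of `ℝ^n` is a minimizing constraint map of class `C¹`, of rank exactly `k`
where `x_{k+1} < 0` and of rank exactly `k + 1` where `x_{k+1} > 0`.  The case `k = 1` (all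
`n, m ≥ 2`) is the negated form of Q1.

Proof: for a competitor `v` put `w = v - u`.  Then the energy of `v` minus the energy of `u` is
`∫ |Dw|² + 2 ∫ ⟪Du, Dw⟫ = ∫ |Dw|² + 2 ∫_{x_{k+1} < 0} ⟪u, w⟫ ≥ ∫ |Dw|² - ∫ |w|² ≥ 0`, because
`|u| = 1` where `x_{k+1} < 0` and `|u + w| ≥ 1`, and by the inequality of Poincaré.
-/

set_option autoImplicit false
open MeasureTheory Set Filter Topology
open scoped ContDiff RealInnerProductSpace

namespace Pool.Agent.Results.MP_5aaff8_an.AllRanks

open Pool.Agent.H507R3.CM Pool.Agent.Results.MP_5aaff8_an.ExteriorBallRankJump Pool.Agent.Y660.RK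

/-- For all `k ≥ 1`, `n ≥ k + 1` and `m ≥ 2 k` the exterior `extBall m` of the closed unit ball of
`ℝ^m` is a smooth domain with convex complement, and there are a connected open `Ω ⊂ ℝ^n` and a
minimizing constraint map `u : Ω → closure (extBall m)` which is continuously differentiable with
derivative `Du` and for which `Ω` is, up to a null set, the union of two nonempty open sets `U`
and `V` with `rank (Du) = k` everywhere in `U` and `rank (Du) = k + 1` everywhere in `V`. -/
theorem result (k n m : ℕ) (hk : 1 ≤ k) (hn : k + 1 ≤ n) (hm : 2 * k ≤ m) :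
    SmoothDomain (extBall m) ∧ Convex ℝ (extBall m)ᶜ ∧
    ∃ (Ω : Set (E n)) (u : E n → E m) (Du : E n → E n →L[ℝ] E m),
      IsOpen Ω ∧ IsConnected Ω ∧ IsMinimizingConstraintMap (extBall m) Ω u Du ∧
      (∀ x, HasFDerivAt u (Du x) x) ∧ Continuous Du ∧
      ∃ U V : Set (E n), IsOpen U ∧ IsOpen V ∧ U.Nonempty ∧ V.Nonempty ∧ U ⊆ Ω ∧ V ⊆ Ω ∧
        volume (Ω \ (U ∪ V)) = 0 ∧ (∀ x ∈ U, rk (Du x) = k) ∧ (∀ x ∈ V, rk (Du x) = k + 1) := by
  refine ⟨extBall_smooth (by omega), ?_, ?_⟩
  · unfold extBall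
    rw [compl_compl]
    exact convex_closedBall 0 1
  let i : Fin k → Fin n := fun j => ⟨j.1, by omega⟩
  let il : Fin n := ⟨k, by omega⟩
  have hi : Function.Injective i := by
    intro a b h
    have := congrArg Fin.val h
    exact Fin.ext this
  have hil : ∀ j, i j ≠ il := by
    intro j h
    have := congrArg Fin.val h
    have h2 : j.1 = k := this
    omega
  let e : Fin k × Fin 2 → Fin m := fun p => ⟨2 * p.1.1 + p.2.1, by omega⟩
  have he : Function.Injective e := by
    intro p q h
    have h1 : 2 * p.1.1 + p.2.1 = 2 * q.1.1 + q.2.1 := congrArg Fin.val h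
    have h2 := p.2.2
    have h3 := q.2.2
    exact Prod.ext (Fin.ext (by omega)) (Fin.ext (by omega))
  let g : Fin k × Fin 2 → E m := fun p => EuclideanSpace.basisFun (Fin m) ℝ (e p)
  have hg : Orthonormal ℝ g := (EuclideanSpace.basisFun (Fin m) ℝ).orthonormal.comp e he
  have c1 : Continuous fun x : E n => x il := by fun_prop
  refine ⟨cube n, uK g i il, DuK g i il, cube_open n,
    ⟨⟨0, zero_mem_cube n⟩, (cube_convex n).isPreconnected⟩,
    ⟨W12_of_C1 (uK_hasFDerivAt g i il) (DuK_continuous g i il), ?_, ?_⟩,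
    uK_hasFDerivAt g i il, DuK_continuous g i il,
    cube n ∩ {x | x il < 0}, cube n ∩ {x | 0 < x il},
    (cube_open n).inter (isOpen_lt c1 continuous_const),
    (cube_open n).inter (isOpen_lt continuous_const c1), ?_, ?_, inter_subset_left,
    inter_subset_left, ?_, fun x hx => rk_neg hk hg hi hil x hx.2,
    fun x hx => rk_pos hk hg hi hil x hx.2⟩
  · rw [closure_extBall]
    exact Filter.Eventually.of_forall fun x => uK_norm_ge i il hg hk x
  · intro Ω' hΩ' hcomp hsub v Dv hv hvM hvu
    rw [closure_extBall] at hvM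
    exact uK_min hk hg hi hil hΩ' hcomp hsub hv hvM hvu
  · refine ⟨EuclideanSpace.single il (-1/4), ?_, ?_⟩
    · intro a
      rw [PiLp.single_apply]
      split_ifs
      · rw [abs_lt]; constructor <;> norm_num
      · norm_num
    · show (EuclideanSpace.single il (-1/4 : ℝ) : E n) il < 0
      rw [PiLp.single_apply, if_pos rfl]; norm_num
  · refine ⟨EuclideanSpace.single il (1/4), ?_, ?_⟩
    · intro a
      rw [PiLp.single_apply]
      split_ifs
      · rw [abs_lt]; constructor <;> norm_num
      · norm_num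
    · show 0 < (EuclideanSpace.single il (1/4 : ℝ) : E n) il
      rw [PiLp.single_apply, if_pos rfl]; norm_num
  · have h := hyper_null (n := n) il
    rw [ae_iff] at h
    refine measure_mono_null ?_ h
    rintro x ⟨hx, hx'⟩
    show ¬ (x il ≠ 0)
    intro hne
    rcases lt_or_gt_of_ne hne with h1 | h1
    · exact hx' (Or.inl ⟨hx, h1⟩)
    · exact hx' (Or.inr ⟨hx, h1⟩)

end Pool.Agent.Results.MP_5aaff8_an.AllRanks
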